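import Mathlib
import Pool.Agent.H358R5.MainC
import Pool.Agent.H358R5.Three
import Pool.Agent.H95R2.BG.Final2

/-! The largest number `ρ k` of primes which occur in windows `(x, x + k]` for arbitrarily large `x`, and the
largest number `hmax k` of integers without prime factor `≤ k` in a window of length `k`:
`hmax k < exp (4 ρ k + 0.58)` for every `k`, with the sharper bounds `hmax k < 3560` if `ρ k ≤ 2` and
`hmax k < 49` if `ρ k ≤ 1`. -/

open Filter Finset

namespace Pool.Agent.Results.MP_cbf366_nt.LogLowerBound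

/-- the number of integers `m < n ≤ m + k` such that no prime `p ≤ k` divides `n` -/
noncomputable def h (m k : ℕ) : ℕ :=
  Set.ncard {n : ℕ | m < n ∧ n ≤ m + k ∧ ∀ p : ℕ, p.Prime → p ≤ k → ¬ p ∣ n}

/-- `max_m h m k` -/
noncomputable def hmax (k : ℕ) : ℕ := sSup (Set.range fun m => h m k)

/-- `limsup (π (x + k) - π x)` -/
noncomputable def rho (k : ℕ) : ℕ :=
  limsup (fun x : ℕ => Nat.primeCounting (x + k) - Nat.primeCounting x) atTop

theorem window_eq (x k : ℕ) :
    ((Ioc x (x + k)).filter Nat.Prime).card = Nat.primeCounting (x + k) - Nat.primeCounting x := by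
  have h1 : (range (x + k + 1)).filter Nat.Prime =
      (range (x + 1)).filter Nat.Prime ∪ (Ioc x (x + k)).filter Nat.Prime := by
    ext n
    simp only [mem_filter, mem_range, mem_union, mem_Ioc]
    constructor
    · rintro ⟨h1, h2⟩
      rcases Nat.lt_or_ge n (x + 1) with h | h
      · exact Or.inl ⟨h, h2⟩
      · exact Or.inr ⟨⟨by omega, by omega⟩, h2⟩
    · rintro (⟨h1, h2⟩ | ⟨⟨h1, h3⟩, h2⟩)
      · exact ⟨by omega, h2⟩
      · exact ⟨by omega, h2⟩
  have h2 : Disjoint ((range (x + 1)).filter Nat.Prime) ((Ioc x (x + k)).filter Nat.Prime) := by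
    rw [Finset.disjoint_left]
    intro n hn hn'
    have a := mem_range.1 (mem_filter.1 hn).1
    have b := (mem_Ioc.1 (mem_filter.1 hn').1).1
    omega
  have h3 := congrArg Finset.card h1
  rw [card_union_of_disjoint h2] at h3
  unfold Nat.primeCounting Nat.primeCounting'
  rw [Nat.count_eq_card_filter_range, Nat.count_eq_card_filter_range]
  have h4 : ∀ n : ℕ, ((range n).filter fun x => Nat.Prime x) = (range n).filter Nat.Prime := fun _ => rfl
  simp only [h4]
  omega

theorem window_le (x k : ℕ) : Nat.primeCounting (x + k) - Nat.primeCounting x ≤ k := by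
  rw [← window_eq]
  refine (card_filter_le _ _).trans ?_
  simp

theorem rho_ge {r k : ℕ} (hr : ∃ᶠ x : ℕ in atTop, r ≤ ((Ioc x (x + k)).filter Nat.Prime).card) : r ≤ rho k := by
  unfold rho
  refine le_limsup_of_frequently_le ?_ ?_
  · refine hr.mono fun x hx => ?_
    rwa [window_eq] at hx
  · refine ⟨k, ?_⟩
    rw [Filter.eventually_map]
    exact Eventually.of_forall fun x => window_le x k

theorem h_le (m k : ℕ) : h m k ≤ k := by
  have h1 : {n : ℕ | m < n ∧ n ≤ m + k ∧ ∀ p : ℕ, p.Prime → p ≤ k → ¬ p ∣ n} ⊆ ((Ioc m (m + k) : Finset ℕ) : Set ℕ) := by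
    intro n hn
    simp only [coe_Ioc, Set.mem_Ioc]
    exact ⟨hn.1, hn.2.1⟩
  refine (Set.ncard_le_ncard h1 (Finset.finite_toSet _)).trans ?_
  rw [Set.ncard_coe_finset]
  simp

theorem exists_hmax (k : ℕ) : ∃ m, h m k = hmax k := by
  have h1 : hmax k ∈ Set.range fun m => h m k :=
    Nat.sSup_mem (Set.range_nonempty _) ⟨k, by rintro _ ⟨m, rfl⟩; exact h_le m k⟩
  exact h1

open Classical in
/-- `DHL[49, 2]` in the form used here -/
theorem dhl49 (a : Fin 49 → ℕ) (ha : Pool.Agent.H358R5.Adm a) :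
    {n : ℕ | 1 + 1 ≤ (univ.filter fun i => (n + a i).Prime).card}.Infinite := by
  intro hfin
  have h1 := Pool.Agent.H95R2.BG.dhl49_consecutive (fun i => (a i : ℤ))
    (fun i j hij => ha.1 (by
      have h0 : (a i : ℤ) = a j := hij
      exact_mod_cast h0))
    (fun p hp => by
      obtain ⟨r, hr⟩ := ha.2 p hp
      refine ⟨r, fun i hd => hr i ?_⟩
      exact_mod_cast hd) (1 / 2) (by norm_num)
  have h2 : Tendsto (fun x : ℝ => x ^ (1 - 1 / 2 : ℝ)) atTop atTop := tendsto_rpow_atTop (by norm_num)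
  obtain ⟨x, hx1, hx2⟩ := (h1.and (h2.eventually_gt_atTop (hfin.toFinset.card : ℝ))).exists
  have h3 := hx2.trans_le hx1
  have h4 := Nat.cast_lt.1 h3
  refine absurd h4 (not_lt.2 (card_le_card fun n hn => ?_))
  obtain ⟨⟨i, j, hij, p, q, hp, hq, hpe, hqe⟩, -⟩ := (mem_filter.1 hn).2
  rw [Set.Finite.mem_toFinset, Set.mem_ofPred_eq]
  have hp' : (n + a i).Prime := by
    have : p = n + a i := by exact_mod_cast hpe
    rwa [← this]
  have hq' : (n + a j).Prime := by
    have : q = n + a j := by exact_mod_cast hqe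
    rwa [← this]
  have h5 : ({i, j} : Finset (Fin 49)) ⊆ univ.filter fun i => (n + a i).Prime := by
    intro l hl
    rcases mem_insert.1 hl with rfl | hl
    · exact mem_filter.2 ⟨mem_univ _, hp'⟩
    · rw [mem_singleton.1 hl]
      exact mem_filter.2 ⟨mem_univ _, hq'⟩
  have h6 := card_le_card h5
  rwa [card_pair hij] at h6

theorem inf_of_chyp {m K : ℕ} (hC : Pool.Agent.H358R5.CHyp m K) (a : Fin K → ℕ) (ha : Pool.Agent.H358R5.Adm a) :
    {n : ℕ | m + 1 ≤ (univ.filter fun i => (n + a i).Prime).card}.Infinite := by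
  intro hfin
  have h1 := hC a ha 1 0 squarefree_one (fun i => Nat.coprime_one_right _) (1 / 2) (by norm_num)
  have h2 : Tendsto (fun x : ℝ => x ^ (1 - 1 / 2 : ℝ)) atTop atTop := tendsto_rpow_atTop (by norm_num)
  obtain ⟨x, hx1, hx2⟩ := (h1.and (h2.eventually_gt_atTop (hfin.toFinset.card : ℝ))).exists
  have h3 := hx2.trans_le hx1
  have h4 := Nat.cast_lt.1 h3
  refine absurd h4 (not_lt.2 (card_le_card fun n hn => ?_))
  rw [Set.Finite.mem_toFinset, Set.mem_ofPred_eq]
  exact (mem_filter.1 hn).2.2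

theorem rho_pos {k : ℕ} (hk : 1 ≤ k) : 1 ≤ rho k := by
  refine rho_ge ?_
  rw [frequently_atTop]
  intro N
  obtain ⟨p, hp1, hp2⟩ := Nat.exists_infinite_primes (N + 1)
  refine ⟨p - 1, by omega, ?_⟩
  refine card_pos.2 ⟨p, mem_filter.2 ⟨mem_Ioc.2 ⟨by omega, by omega⟩, hp2⟩⟩

theorem hmax_lt_49 {k : ℕ} (hk : rho k ≤ 1) : hmax k < 49 := by
  by_contra hc
  obtain ⟨m, hm⟩ := exists_hmax k
  have h1 := Pool.Agent.H358R5.RHO_proof 1 49 k m (fun a ha => dhl49 a ha)
    (show 49 ≤ h m k by omega)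
  have h2 := rho_ge h1
  omega

theorem hmax_lt_3560 {k : ℕ} (hk : rho k ≤ 2) : hmax k < 3560 := by
  by_contra hc
  obtain ⟨m, hm⟩ := exists_hmax k
  have h1 := Pool.Agent.H358R5.RHO_proof 2 3560 k m (fun a ha => inf_of_chyp Pool.Agent.H358R5.chyp3 a ha)
    (show 3560 ≤ h m k by omega)
  have h2 := rho_ge h1
  omega

theorem result (k : ℕ) :
    (hmax k : ℝ) < Real.exp (4 * rho k + 0.58) ∧ (rho k ≤ 2 → hmax k < 3560) ∧ (rho k ≤ 1 → hmax k < 49) := by
  refine ⟨?_, hmax_lt_3560, hmax_lt_49⟩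
  rcases Nat.lt_or_ge (rho k) 2 with h2 | h2
  · rcases Nat.eq_zero_or_pos k with rfl | hk
    · obtain ⟨m, hm⟩ := exists_hmax 0
      have h3 := h_le m 0
      have h4 : hmax 0 = 0 := by omega
      rw [h4]
      simpa using Real.exp_pos _
    · have h3 : rho k = 1 := le_antisymm (by omega) (rho_pos hk)
      have h4 := hmax_lt_49 h3.le
      have h5 : (hmax k : ℝ) ≤ 48 := by
        have : hmax k ≤ 48 := by omega
        exact_mod_cast this
      refine h5.trans_lt ?_
      rw [h3]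
      have h6 : (2.7 : ℝ) < Real.exp 1 := by
        have := Real.exp_one_gt_d9
        linarith
      have h7 : Real.exp 4 = Real.exp 1 ^ 4 := by
        rw [← Real.exp_nat_mul]; norm_num
      have h8 : Real.exp 4 ≤ Real.exp (4 * (1 : ℕ) + 0.58) := by
        apply Real.exp_le_exp.2
        norm_num
      refine lt_of_lt_of_le ?_ h8
      rw [h7]
      calc (48 : ℝ) < 2.7 ^ 4 := by norm_num
        _ ≤ Real.exp 1 ^ 4 := by gcongr
  · by_contra hc
    rw [not_lt] at hc
    obtain ⟨m, hm⟩ := exists_hmax k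
    have h3 : 4 * (rho k : ℝ) + 29 / 50 ≤ Real.log (h m k : ℕ) := by
      rw [hm, Real.le_log_iff_exp_le]
      · refine le_trans (le_of_eq ?_) hc
        norm_num
      · exact lt_of_lt_of_le (Real.exp_pos _) hc
    have h4 := Pool.Agent.H358R5.rho_many (rho k) k m h2 h3
    have h5 := rho_ge h4
    omega

end Pool.Agent.Results.MP_cbf366_nt.LogLowerBound
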